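import Pool.Agent.H37.CNK.Stmts

/-!
# Board `cnk`, row LPO (helper62): `b (g ^ p) > b g`
-/

set_option autoImplicit false

namespace Pool.CND

open Finset

/-- the linear map `g - 1` -/
private noncomputable def lpoD {k L : Type} [Field k] [Field L] [Algebra k L] (g : L ≃ₐ[k] L) :
    Module.End k L := (g.toLinearMap : Module.End k L) - 1

private theorem lpo_lin_pow {k L : Type} [Field k] [Field L] [Algebra k L] (g : L ≃ₐ[k] L)
    (n : ℕ) : (g.toLinearMap : Module.End k L) ^ n = (g ^ n).toLinearMap := by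
  induction n with
  | zero => rfl
  | succ n ih =>
    rw [pow_succ, ih, pow_succ]
    rfl

theorem lpo_thm (hBAS : S_BAS) (hLON : S_LON) (hINJ : S_INJ) : S_LPO := by
  intro p k L G _ _ _ _ _ _ ρ t P hcv g hg
  obtain ⟨-, hfix, -, hUM, hinj⟩ := hBAS p k L G ρ t P hcv
  by_cases hgp : g ^ p = 1
  · exact Or.inl hgp
  right
  have hp := hcv.pr
  have hi : 1 ≤ P.b (ρ g) := hUM.pos g (Subgroup.mem_top g) hg
  set i : ℤ := P.b (ρ g) with hidef
  have hb : P.ord (ρ g P.pi - P.pi) = i + 1 := by
    rw [hidef]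
    unfold Place.b
    ring
  have key : ∀ j : ℕ, P.Ge ((lpoD (ρ g) ^ j) P.pi) (1 + j * i) := by
    intro j
    induction j with
    | zero =>
      right
      rw [pow_zero]
      show 1 + ((0 : ℕ) : ℤ) * i ≤ P.ord P.pi
      rw [P.ord_pi]
      simp
    | succ j ih =>
      have h6 : (lpoD (ρ g) ^ (j + 1)) P.pi =
          ρ g ((lpoD (ρ g) ^ j) P.pi) - (lpoD (ρ g) ^ j) P.pi := by
        rw [pow_succ']
        rfl
      rw [h6]
      rcases ih with h0 | h0
      · left
        rw [h0, map_zero, sub_zero]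
      · rcases hLON k L P (ρ g) P.pi i (hfix g) P.pi_ne P.ord_pi (by linarith)
          (Or.inr (by rw [hb])) ((lpoD (ρ g) ^ j) P.pi) with h | h
        · refine P.ge_mono h ?_
          push_cast
          linarith
        · left
          rw [h, map_zero, sub_zero]
  haveI : CharP (Module.End k L) p := by
    haveI := hcv.ch
    exact charP_of_injective_algebraMap (FaithfulSMul.algebraMap_injective k (Module.End k L)) p
  haveI : Fact p.Prime := ⟨hp⟩
  have h7 : (lpoD (ρ g) ^ p) P.pi = ρ (g ^ p) P.pi - P.pi := by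
    have h8 : lpoD (ρ g) ^ p = ((ρ (g ^ p)).toLinearMap : Module.End k L) - 1 := by
      unfold lpoD
      rw [sub_pow_expChar_of_commute (p := p) (Commute.one_right _), one_pow, lpo_lin_pow, map_pow]
    rw [h8]
    rfl
  have h9 := key p
  rw [h7] at h9
  have h10 : ρ (g ^ p) P.pi - P.pi ≠ 0 := by
    intro h
    have h11 := hINJ k L P (ρ (g ^ p)) P.pi (hfix _) P.pi_ne P.ord_pi (sub_eq_zero.1 h)
    exact hgp (hinj (by rw [h11, map_one]))
  have h12 := h9.resolve_left h10
  have h13 : (2 : ℤ) ≤ p := by exact_mod_cast hp.two_le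
  have h14 : P.b (ρ (g ^ p)) = P.ord (ρ (g ^ p) P.pi - P.pi) - 1 := rfl
  rw [h14]
  nlinarith

end Pool.CND
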